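import Pool.Agent.helper17.EXC.Spec

/-!
# Project EXC (MP_561ff4_al), row `en:JAC`: the Jacobi identity for a root vector
-/

set_option autoImplicit false

open Finset

namespace Pool.Agent.EXC

section
variable {n : ℕ} (C : Matrix (Fin n) (Fin n) ℤ) {F : Type} [Field F] [IsC C]

omit [IsC C] in
theorem JAC_E0 : (E C 0 : Lm C F) = 0 := E_eq_zero C (by simp)

omit [IsC C] in
theorem JAC_ne_neg {α β : Fin n → ℤ} (hα : ip C α α = 2) (h : ip C α β ≠ -2) : β ≠ -α := by
  intro e
  apply h
  rw [e, ip_neg_right, hα]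

/-- the bracket of two root vectors is zero if the product is not `-1`, `-2` -/
theorem JAC_far {α β : Fin n → ℤ} (hα : ip C α α = 2) (hβ : ip C β β = 2) (h1 : ip C α β ≠ -1) (h2 : ip C α β ≠ -2) :
    br C (E C α) (E C β : Lm C F) = 0 := by
  rw [br_E_E C hα hβ, if_neg (JAC_ne_neg C hα h2), E_eq_zero C (fun h => h1 ((add_root_iff hα hβ).1 h)), smul_zero, sub_zero]

theorem JAC_near {α β : Fin n → ℤ} (hα : ip C α α = 2) (hβ : ip C β β = 2) (h1 : ip C α β ≠ -2) :
    br C (E C α) (E C β : Lm C F) = (sg C α β : F) • E C (α + β) := by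
  rw [br_E_E C hα hβ, if_neg (JAC_ne_neg C hα h1), sub_zero]

theorem JAC_opp {α : Fin n → ℤ} (hα : ip C α α = 2) : br C (E C α) (E C (-α) : Lm C F) = -ht C α := by
  rw [br_E_E C hα (neg_root C hα), if_pos rfl, add_neg_cancel, JAC_E0, smul_zero, zero_sub]

theorem JAC_opp' {α : Fin n → ℤ} (hα : ip C α α = 2) : br C (E C (-α)) (E C α : Lm C F) = ht C α := by
  have h := JAC_opp (F := F) C (neg_root (C := C) hα)
  rw [neg_neg, ht_neg, neg_neg] at h
  exact h

theorem JAC_E_ht {α : Fin n → ℤ} (hα : ip C α α = 2) (β : Fin n → ℤ) :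
    br C (E C α) (ht C β : Lm C F) = -(ip C α β : F) • (E C α : Lm C F) := by
  rw [ht, br_E_H C hα, ev_coroot]

theorem JAC_ht_E {γ : Fin n → ℤ} (hγ : ip C γ γ = 2) (α : Fin n → ℤ) :
    br C (ht C α : Lm C F) (E C γ) = (ip C γ α : F) • (E C γ : Lm C F) := by
  rw [ht, br_H_E C hγ, ev_coroot]

theorem JAC_H_E (γ : Fin n → ℤ) (h : Fin n → F) : br C (h, 0) (E C γ) = ev C γ h • (E C γ : Lm C F) := by
  by_cases hγ : ip C γ γ = 2
  · exact br_H_E C hγ h
  · rw [E_eq_zero C hγ, br_zero_right, smul_zero]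

theorem JAC_E_H (γ : Fin n → ℤ) (h : Fin n → F) : br C (E C γ) (h, 0) = -(ev C γ h) • (E C γ : Lm C F) := by
  by_cases hγ : ip C γ γ = 2
  · exact br_E_H C hγ h
  · rw [E_eq_zero C hγ, br_zero_left, smul_zero]

/-- antisymmetry for two root vectors -/
theorem JAC_anti {α β : Fin n → ℤ} (hα : ip C α α = 2) (hβ : ip C β β = 2) :
    br C (E C β) (E C α : Lm C F) = -br C (E C α) (E C β) := by
  by_cases h2 : ip C α β = -2
  · have e := eq_neg_of_ip_eq_neg_two hα hβ h2
    subst e
    rw [JAC_opp C hα, JAC_opp' C hα, neg_neg]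
  · have h2' : ip C β α ≠ -2 := by rw [ip_comm C β α]; exact h2
    rw [JAC_near C hα hβ h2, JAC_near C hβ hα h2']
    by_cases h1 : ip C α β = -1
    · rw [sg_comm_odd C α β (by rw [h1]; decide), add_comm β α]
      push_cast
      rw [neg_smul]
    · have h3 : ip C (α + β) (α + β) ≠ 2 := fun h => h1 ((add_root_iff hα hβ).1 h)
      rw [add_comm β α, E_eq_zero C h3, smul_zero, smul_zero, neg_zero]

/-- (H, E) -/
theorem JAC_HE {α β : Fin n → ℤ} (hα : ip C α α = 2) (hβ : ip C β β = 2) (h : Fin n → F) :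
    br C (E C α) (br C (h, 0) (E C β) : Lm C F) = br C (br C (E C α) (h, 0)) (E C β) + br C (h, 0) (br C (E C α) (E C β)) := by
  rw [br_H_E C hβ, br_E_H C hα, br_smul_right, br_smul_left]
  by_cases h2 : ip C α β = -2
  · have e := eq_neg_of_ip_eq_neg_two hα hβ h2
    subst e
    rw [JAC_opp C hα, br_neg_right, ht, br_H_H, neg_zero, add_zero, ev_neg_left]
  · rw [JAC_near C hα hβ h2, br_smul_right, JAC_H_E, ev_add_left]
    module

/-- (E, H) -/
theorem JAC_EH {α β : Fin n → ℤ} (hα : ip C α α = 2) (hβ : ip C β β = 2) (h : Fin n → F) :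
    br C (E C α) (br C (E C β) (h, 0) : Lm C F) = br C (br C (E C α) (E C β)) (h, 0) + br C (E C β) (br C (E C α) (h, 0)) := by
  rw [br_E_H C hβ, br_E_H C hα, br_smul_right, br_smul_right, JAC_anti C hα hβ]
  by_cases h2 : ip C α β = -2
  · have e := eq_neg_of_ip_eq_neg_two hα hβ h2
    subst e
    rw [JAC_opp C hα, br_neg_left, ht, br_H_H, ev_neg_left]
    module
  · rw [JAC_near C hα hβ h2, br_smul_left, JAC_E_H, ev_add_left]
    module

/-- (H, H) -/
theorem JAC_HH {α : Fin n → ℤ} (hα : ip C α α = 2) (h h' : Fin n → F) :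
    br C (E C α) (br C (h, 0) (h', 0) : Lm C F) = br C (br C (E C α) (h, 0)) (h', 0) + br C (h, 0) (br C (E C α) (h', 0)) := by
  rw [br_H_H, br_zero_right, br_E_H C hα, br_E_H C hα, br_smul_right, br_smul_left, br_E_H C hα, br_H_E C hα]
  module

/-- `s = -2` -/
theorem JAC_s {α β : Fin n → ℤ} (hα : ip C α α = 2) (hβ : ip C β β = 2) :
    br C (E C α) (br C (E C β) (E C (-β)) : Lm C F) = br C (br C (E C α) (E C β)) (E C (-β)) + br C (E C β) (br C (E C α) (E C (-β))) := by
  have hγ := neg_root (C := C) hβ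
  rw [JAC_opp C hβ, br_neg_right, JAC_E_ht C hα]
  have hq : ip C α (-β) = -ip C α β := ip_neg_right C α β
  obtain ⟨l1, l2⟩ := ip_abs_le hα hβ
  have hc : ip C α β = -2 ∨ ip C α β = -1 ∨ ip C α β = 0 ∨ ip C α β = 1 ∨ ip C α β = 2 := by omega
  rcases hc with hp | hp | hp | hp | hp
  · have e := eq_neg_of_ip_eq_neg_two hα hβ hp
    rw [hp, JAC_far C hα hγ (by omega) (by omega), br_zero_right, add_zero, e, neg_neg, JAC_opp C hα, br_neg_left, JAC_ht_E C hα, hα]
    push_cast
    module
  · rw [hp, JAC_far C hα hγ (by omega) (by omega), br_zero_right, add_zero, JAC_near C hα hβ (by omega), br_smul_left]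
    have hr : ip C (α + β) (α + β) = 2 := (add_root_iff hα hβ).2 hp
    have h3 : ip C (α + β) (-β) = -1 := by rw [ip_add_left, ip_neg_right, ip_neg_right, hp, hβ]; norm_num
    rw [JAC_near C hr hγ (by omega), add_neg_cancel_right, sg_neg_right, sg_add_left, sg_self C hβ, smul_smul]
    have := sg_sq (F := F) C α β
    push_cast
    rw [← mul_assoc, this]
    module
  · rw [hp, JAC_far C hα hβ (by omega) (by omega), JAC_far C hα hγ (by omega) (by omega)]
    simp
  · rw [hp, JAC_far C hα hβ (by omega) (by omega), br_zero_left, zero_add, JAC_near C hα hγ (by omega), br_smul_right]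
    have hr : ip C (α + -β) (α + -β) = 2 := (add_root_iff hα hγ).2 (by omega)
    have h3 : ip C β (α + -β) = -1 := by rw [ip_add_right, ip_neg_right, ip_comm C β α, hp, hβ]; norm_num
    have h4 : β + (α + -β) = α := by abel
    rw [JAC_near C hβ hr (by omega), h4, sg_neg_right, sg_add_right, sg_neg_right, sg_self C hβ,
      sg_comm_odd C α β (by rw [hp]; decide), smul_smul]
    have := sg_sq (F := F) C α β
    push_cast
    rw [mul_neg, mul_one, neg_neg, this]
    module
  · have e := eq_of_ip_eq_two hα hβ hp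
    rw [hp, JAC_far C hα hβ (by omega) (by omega), br_zero_left, zero_add, ← e, JAC_opp C hα, br_neg_right, JAC_E_ht C hα, hα]

/-- `p = -2` -/
theorem JAC_p {α γ : Fin n → ℤ} (hα : ip C α α = 2) (hγ : ip C γ γ = 2) :
    br C (E C α) (br C (E C (-α)) (E C γ) : Lm C F) = br C (br C (E C α) (E C (-α))) (E C γ) + br C (E C (-α)) (br C (E C α) (E C γ)) := by
  have hβ := neg_root (C := C) hα
  rw [JAC_opp C hα, br_neg_left, JAC_ht_E C hγ]
  have hq : ip C (-α) γ = -ip C α γ := ip_neg_left C α γ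
  have hq' : ip C γ α = ip C α γ := ip_comm C γ α
  obtain ⟨l1, l2⟩ := ip_abs_le hα hγ
  have hc : ip C α γ = -2 ∨ ip C α γ = -1 ∨ ip C α γ = 0 ∨ ip C α γ = 1 ∨ ip C α γ = 2 := by omega
  rw [hq']
  rcases hc with hp | hp | hp | hp | hp
  · have e := eq_neg_of_ip_eq_neg_two hα hγ hp
    rw [JAC_far C hβ hγ (by omega) (by omega), br_zero_right, hp, e, JAC_opp C hα, br_neg_right, JAC_E_ht C hβ, ip_neg_left, hα]
    push_cast
    module
  · rw [JAC_far C hβ hγ (by omega) (by omega), br_zero_right, hp, JAC_near C hα hγ (by omega), br_smul_right]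
    have hr : ip C (α + γ) (α + γ) = 2 := (add_root_iff hα hγ).2 hp
    have h3 : ip C (-α) (α + γ) = -1 := by rw [ip_add_right, ip_neg_left, ip_neg_left, hp, hα]; norm_num
    rw [JAC_near C hβ hr (by omega), neg_add_cancel_left, sg_neg_left, sg_add_right, sg_self C hα, smul_smul]
    have := sg_sq (F := F) C α γ
    push_cast
    rw [neg_one_mul, mul_neg, this]
    module
  · rw [JAC_far C hβ hγ (by omega) (by omega), JAC_far C hα hγ (by omega) (by omega), hp]
    simp
  · rw [hp, JAC_far C hα hγ (by omega) (by omega), br_zero_right, add_zero, JAC_near C hβ hγ (by omega), br_smul_right]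
    have hr : ip C (-α + γ) (-α + γ) = 2 := (add_root_iff hβ hγ).2 (by omega)
    have h3 : ip C α (-α + γ) = -1 := by rw [ip_add_right, ip_neg_right, hp, hα]; norm_num
    rw [JAC_near C hα hr (by omega), add_neg_cancel_left, sg_neg_left, sg_add_right, sg_neg_right, sg_self C hα, smul_smul]
    have := sg_sq (F := F) C α γ
    push_cast
    rw [neg_one_mul, mul_neg, this]
    module
  · have e := eq_of_ip_eq_two hα hγ hp
    rw [hp, JAC_far C hα hγ (by omega) (by omega), br_zero_right, add_zero, ← e, JAC_opp' C hα, JAC_E_ht C hα, hα]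
    push_cast
    module

/-- `q = -2` -/
theorem JAC_q {α β : Fin n → ℤ} (hα : ip C α α = 2) (hβ : ip C β β = 2) :
    br C (E C α) (br C (E C β) (E C (-α)) : Lm C F) = br C (br C (E C α) (E C β)) (E C (-α)) + br C (E C β) (br C (E C α) (E C (-α))) := by
  have hγ := neg_root (C := C) hα
  rw [JAC_opp C hα, br_neg_right, JAC_E_ht C hβ]
  have hq : ip C β (-α) = -ip C α β := by rw [ip_neg_right, ip_comm C β α]
  have hq' : ip C β α = ip C α β := ip_comm C β α
  obtain ⟨l1, l2⟩ := ip_abs_le hα hβ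
  have hc : ip C α β = -2 ∨ ip C α β = -1 ∨ ip C α β = 0 ∨ ip C α β = 1 ∨ ip C α β = 2 := by omega
  rw [hq']
  rcases hc with hp | hp | hp | hp | hp
  · have e := eq_neg_of_ip_eq_neg_two hα hβ hp
    rw [JAC_far C hβ hγ (by omega) (by omega), br_zero_right, hp, e, JAC_opp C hα, br_neg_left, JAC_ht_E C hγ, ip_neg_left, hα]
    push_cast
    module
  · rw [JAC_far C hβ hγ (by omega) (by omega), br_zero_right, hp, JAC_near C hα hβ (by omega), br_smul_left]
    have hr : ip C (α + β) (α + β) = 2 := (add_root_iff hα hβ).2 hp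
    have h3 : ip C (α + β) (-α) = -1 := by rw [ip_add_left, ip_neg_right, hq, hp, hα]; norm_num
    have h4 : α + β + -α = β := by abel
    rw [JAC_near C hr hγ (by omega), h4, sg_neg_right, sg_add_left, sg_self C hα, sg_comm_odd C α β (by rw [hp]; decide), smul_smul]
    have := sg_sq (F := F) C α β
    push_cast
    rw [neg_one_mul, neg_neg, this]
    module
  · rw [JAC_far C hβ hγ (by omega) (by omega), JAC_far C hα hβ (by omega) (by omega), hp]
    simp
  · rw [hp, JAC_far C hα hβ (by omega) (by omega), br_zero_left, zero_add, JAC_near C hβ hγ (by omega), br_smul_right]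
    have hr : ip C (β + -α) (β + -α) = 2 := (add_root_iff hβ hγ).2 (by omega)
    have h3 : ip C α (β + -α) = -1 := by rw [ip_add_right, ip_neg_right, hp, hα]; norm_num
    have h4 : α + (β + -α) = β := by abel
    rw [JAC_near C hα hr (by omega), h4, sg_neg_right, sg_add_right, sg_neg_right, sg_self C hα, sg_comm_odd C α β (by rw [hp]; decide), smul_smul]
    have := sg_sq (F := F) C α β
    push_cast
    rw [mul_neg, mul_one, neg_mul, mul_neg, neg_neg, this]
    module
  · have e := eq_of_ip_eq_two hα hβ hp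
    rw [hp, JAC_far C hα hβ (by omega) (by omega), br_zero_left, zero_add, ← e, JAC_opp C hα, br_neg_right, JAC_E_ht C hα, hα]

/-- no product is `-2`: one term -/
theorem JAC_term {β γ : Fin n → ℤ} (hβ : ip C β β = 2) (hγ : ip C γ γ = 2) (hs : ip C β γ ≠ -2) (α : Fin n → ℤ) (hα : ip C α α = 2)
    (h0 : α + β + γ ≠ 0) :
    br C (E C α) (br C (E C β) (E C γ) : Lm C F) = if ip C β γ = -1 then ((sg C β γ : F) * (sg C α (β + γ) : F)) • (E C (α + β + γ) : Lm C F) else 0 := by
  by_cases h1 : ip C β γ = -1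
  · rw [if_pos h1, JAC_near C hβ hγ hs, br_smul_right]
    have hr : ip C (β + γ) (β + γ) = 2 := (add_root_iff hβ hγ).2 h1
    have h2 : ip C α (β + γ) ≠ -2 := by
      intro h
      have e := eq_neg_of_ip_eq_neg_two hα hr h
      apply h0
      rw [add_assoc, e, add_neg_cancel]
    rw [JAC_near C hα hr h2, smul_smul, add_assoc]
  · rw [if_neg h1, JAC_far C hβ hγ h1 hs, br_zero_right]

theorem JAC_term' {α β : Fin n → ℤ} (hα : ip C α α = 2) (hβ : ip C β β = 2) (hs : ip C α β ≠ -2) (γ : Fin n → ℤ) (hγ : ip C γ γ = 2)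
    (h0 : α + β + γ ≠ 0) :
    br C (br C (E C α) (E C β) : Lm C F) (E C γ) = if ip C α β = -1 then ((sg C α β : F) * (sg C (α + β) γ : F)) • (E C (α + β + γ) : Lm C F) else 0 := by
  by_cases h1 : ip C α β = -1
  · rw [if_pos h1, JAC_near C hα hβ hs, br_smul_left]
    have hr : ip C (α + β) (α + β) = 2 := (add_root_iff hα hβ).2 h1
    have h2 : ip C (α + β) γ ≠ -2 := by
      intro h
      have e := eq_neg_of_ip_eq_neg_two hr hγ h
      apply h0
      rw [e, add_neg_cancel]
    rw [JAC_near C hr hγ h2, smul_smul]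
  · rw [if_neg h1, JAC_far C hα hβ h1 hs, br_zero_left]

theorem JAC_EEE {α β γ : Fin n → ℤ} (hα : ip C α α = 2) (hβ : ip C β β = 2) (hγ : ip C γ γ = 2) :
    br C (E C α) (br C (E C β) (E C γ) : Lm C F) = br C (br C (E C α) (E C β)) (E C γ) + br C (E C β) (br C (E C α) (E C γ)) := by
  by_cases hs : ip C β γ = -2
  · rw [eq_neg_of_ip_eq_neg_two hβ hγ hs]
    exact JAC_s C hα hβ
  by_cases hp : ip C α β = -2
  · rw [eq_neg_of_ip_eq_neg_two hα hβ hp]
    exact JAC_p C hα hγ
  by_cases hq : ip C α γ = -2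
  · rw [eq_neg_of_ip_eq_neg_two hα hγ hq]
    exact JAC_q C hα hβ
  obtain ⟨p1, p2⟩ := ip_abs_le hα hβ
  obtain ⟨q1, q2⟩ := ip_abs_le hα hγ
  obtain ⟨s1, s2⟩ := ip_abs_le hβ hγ
  by_cases h0 : α + β + γ = 0
  · have e : γ = -(α + β) := by rw [← add_eq_zero_iff_eq_neg']; exact h0
    have e' : β + γ = -α := by rw [e]; abel
    have e'' : α + γ = -β := by rw [e]; abel
    have a1 : ip C α (β + γ) = -2 := by rw [e', ip_neg_right, hα]
    have a2 : ip C β (α + γ) = -2 := by rw [e'', ip_neg_right, hβ]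
    rw [ip_add_right] at a1 a2
    rw [ip_comm C β α] at a2
    have a3 : ip C γ (α + β) = -2 := by
      have : α + β = -γ := by rw [e, neg_neg]
      rw [this, ip_neg_right, hγ]
    rw [ip_add_right, ip_comm C γ α, ip_comm C γ β] at a3
    have hp1 : ip C α β = -1 := by omega
    have hq1 : ip C α γ = -1 := by omega
    have hs1 : ip C β γ = -1 := by omega
    have hab : ip C (α + β) (α + β) = 2 := (add_root_iff hα hβ).2 hp1
    rw [JAC_near C hβ hγ hs, JAC_near C hα hβ hp, JAC_near C hα hγ hq, e', e'', br_smul_right, br_smul_right, br_smul_left,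
      JAC_opp C hα, JAC_opp C hβ]
    rw [e, JAC_opp C hab, ht_add, sg_neg_right, sg_neg_right, sg_add_right, sg_add_right, sg_self C hα, sg_self C hβ,
      sg_comm_odd C α β (by rw [hp1]; decide)]
    push_cast
    module
  · have e1 : β + α + γ = α + β + γ := by rw [add_comm β α]
    rw [JAC_term C hβ hγ hs α hα h0, JAC_term' C hα hβ hp γ hγ h0, JAC_term C hα hγ hq β hβ (by rw [e1]; exact h0), e1]
    by_cases hR : ip C (α + β + γ) (α + β + γ) = 2
    · have hn : ip C (α + β + γ) (α + β + γ) = 6 + 2 * (ip C α β + ip C α γ + ip C β γ) := by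
        simp only [ip_add_left, ip_add_right]
        rw [ip_comm C β α, ip_comm C γ α, ip_comm C γ β, hα, hβ, hγ]
        ring
      rw [hn] at hR
      have hc : (ip C α β = -1 ∧ ip C α γ = -1 ∧ ip C β γ = 0) ∨ (ip C α β = -1 ∧ ip C α γ = 0 ∧ ip C β γ = -1) ∨
          (ip C α β = 0 ∧ ip C α γ = -1 ∧ ip C β γ = -1) := by omega
      rcases hc with ⟨hp1, hq1, hs1⟩ | ⟨hp1, hq1, hs1⟩ | ⟨hp1, hq1, hs1⟩
      · rw [if_neg (by omega), if_pos hp1, if_pos hq1, sg_add_left, sg_add_right, sg_comm_odd C α β (by rw [hp1]; decide)]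
        push_cast
        module
      · rw [if_pos hs1, if_pos hp1, if_neg (by omega), sg_add_left, sg_add_right]
        push_cast
        module
      · rw [if_pos hs1, if_neg (by omega), if_pos hq1, sg_add_right, sg_add_right, sg_comm_even C α β (by rw [hp1]; decide)]
        push_cast
        module
    · rw [E_eq_zero C hR]
      simp
end

theorem JAC : JAC_stmt := by
  intro n C _ F _ α hα v w
  refine Lm_ind C (P := fun v => br C (E C α) (br C v w) = br C (br C (E C α) v) w + br C v (br C (E C α) w)) ?_ ?_ ?_ ?_ v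
  · intro x y hx hy
    simp only [br_add_left, br_add_right, hx, hy]
    abel
  · intro c x hx
    simp only [br_smul_left, br_smul_right, hx, smul_add]
  · intro β hβ
    refine Lm_ind C (P := fun w => br C (E C α) (br C (E C β) w) = br C (br C (E C α) (E C β)) w + br C (E C β) (br C (E C α) w)) ?_ ?_ ?_ ?_ w
    · intro x y hx hy
      simp only [br_add_left, br_add_right, hx, hy]
      abel
    · intro c x hx
      simp only [br_smul_left, br_smul_right, hx, smul_add]
    · intro γ hγ
      exact JAC_EEE C hα hβ hγ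
    · intro h
      exact JAC_EH C hα hβ h
  · intro h
    refine Lm_ind C (P := fun w => br C (E C α) (br C (h, 0) w) = br C (br C (E C α) (h, 0)) w + br C (h, 0) (br C (E C α) w)) ?_ ?_ ?_ ?_ w
    · intro x y hx hy
      simp only [br_add_left, br_add_right, hx, hy]
      abel
    · intro c x hx
      simp only [br_smul_left, br_smul_right, hx, smul_add]
    · intro γ hγ
      exact JAC_HE C hα hγ h
    · intro h'
      exact JAC_HH C hα h h'

end Pool.Agent.EXC
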